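import Pool.Agent.Q276.HL.AllA

/-!
# Almost all Weierstrass curves have no integral point below exponential height

For all but `O(R^(5 - 1/50))` of the pairs `(A, B)` of integers with `|A| ≤ R²`, `|B| ≤ R³` (there are
about `4 R⁵` such pairs) and `4 A³ + 27 B² ≠ 0` the curve `y² = x³ + A x + B` has no integral point with
`x ≤ exp(R^(1/5000))`.  So for 100% of the curves, with a power saving, all integral points are beyond
an exponential height; in particular the Hall-Lang inequality holds for all integral points up to
this height.  The result is unconditional and does not use linear forms in logarithms.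

Method. (1) Points with `x ≤ R^4.8` are counted directly. (2) An integral point with `x > R^4` gives,
by reduction of the lattice of the approximations of `√x`, a binary quartic form
`(a, 4b, 6c, 4d, e)` with invariants `-4A`, `-4B`, coefficients
`a T⁴, b T², c, d / T², e / T⁴ = O(R)`, and a point `(p, q)`, `p / T, q T = O(V)`, `V² = √x / R`, with value
`1`. (3) For `V ≤ M R` the forms with such a point are counted by congruences. (4) For larger `V`, large
`T` or `a` a fourth power: direct count. For given `a, b, c, d` (`a` not a fourth power) and `e` in a short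
interval all determinants of size `2m` in the functions `p e^j`, `q e^j` vanish, `m` proportional to
`log V / log R`; so `p A(e) + q B(e) = 0` with polynomials `A`, `B`, and `F_e(-B(e), A(e))` is a fourth
power; the polynomial `F_{e₀+X}(-B(X), A(X))` is not, and a `p`-adic determinant method saves the square
root of the length of the interval.

Authors: helper276 with helper13, helper18, helper26, helper40, helper54, helper65, helper68, helper76,
helper79, helper94, helper124, helper129, helper130, helper135, helper144, helper153, helper164,
helper176, helper192, helper194, helper204, helper234, helper238, helper252, helper256, helper278; the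
model is the project `Pool.Agent.W223.HZ` of the starting files (Mordell's equation, cubic forms).
-/

set_option autoImplicit false

namespace Pool.Agent.Results.MP_a1107e_nt.AlmostAllCurves

/-- There is `M` such that for every `R ≥ 1`, for all but at most `M R ^ (5 - 1/50)` of the pairs of
integers `(A, B)` with `|A| ≤ R ^ 2`, `|B| ≤ R ^ 3`, `4 A ^ 3 + 27 B ^ 2 ≠ 0`, the equation
`y ^ 2 = x ^ 3 + A x + B` has no solution in integers with `x ≤ exp (R ^ (1/5000))`. -/
theorem result : ∃ M : ℝ, ∀ R : ℝ, 1 ≤ R →
    ({X : ℤ × ℤ | |(X.1 : ℝ)| ≤ R ^ 2 ∧ |(X.2 : ℝ)| ≤ R ^ 3 ∧ 4 * X.1 ^ 3 + 27 * X.2 ^ 2 ≠ 0 ∧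
      ∃ x y : ℤ, y ^ 2 = x ^ 3 + X.1 * x + X.2 ∧
        (x : ℝ) ≤ Real.exp (R ^ ((1 : ℝ) / 5000))}.ncard : ℝ) ≤ M * R ^ (5 - (1 : ℝ) / 50) :=
  Pool.Agent.Q276.HL.fina_true

end Pool.Agent.Results.MP_a1107e_nt.AlmostAllCurves
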