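import Mathlib
import Pool.Agent.Q103.HL.Composed

/-!
# The Hall-Lang inequality with absolute exponents for points composed of numbers with small digits

The coordinates `x`, `y` are, up to small factors, products of powers (all exponents are allowed) of
the same numbers `F_i(t)` with small digits in base `t` and first digit `1` or `-1`; the curve
`y ^ 2 = x ^ 3 + A x + B` is arbitrary.
-/

set_option autoImplicit false

namespace Pool.Agent.Results.MP_a1107e_nt.ComposedPoints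

open Polynomial

/-- The bases `F_i(t)`, `i < n`, are the values at `t` of nonconstant polynomials with coefficients
(digits) of absolute value at most `H` and first digit (leading coefficient) `1` or `-1`, of total
degree at most `K`; the factors `ξ`, `η` are nonzero of absolute value at most `H`. -/
structure Bases (K : ℕ) (H : ℝ) {n : ℕ} (F : Fin n → ℤ[X]) (ξ η : ℤ) : Prop where
  pos : ∀ i, 0 < (F i).natDegree
  deg : ∑ i, (F i).natDegree ≤ K
  digits : ∀ i j, |((F i).coeff j : ℝ)| ≤ H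
  first : ∀ i, (F i).leadingCoeff = 1 ∨ (F i).leadingCoeff = -1
  ne : ξ ≠ 0 ∧ η ≠ 0
  factors : |(ξ : ℝ)| ≤ H ∧ |(η : ℝ)| ≤ H

theorem result (K : ℕ) (ε : ℝ) (hε : 0 < ε) : ∃ δ : ℝ, 0 < δ ∧ ∃ t₀ : ℕ, ∀ t : ℕ, t₀ ≤ t →
    ∀ (n : ℕ) (F : Fin n → ℤ[X]) (ξ η : ℤ), Bases K ((t : ℝ) ^ δ) F ξ η →
    ∀ b c : Fin n → ℕ, (∃ i, b i ≠ 0 ∨ c i ≠ 0) →
    ∀ A B x y : ℤ, 4 * A ^ 3 + 27 * B ^ 2 ≠ 0 → y ^ 2 = x ^ 3 + A * x + B →
    x = ξ * ∏ i, (F i).eval (t : ℤ) ^ b i → y = η * ∏ i, (F i).eval (t : ℤ) ^ c i →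
    |(x : ℝ)| ≤ (max |(A : ℝ)| |(B : ℝ)|) ^ (44 + ε) ∧
    |(y : ℝ)| ≤ (max |(A : ℝ)| |(B : ℝ)|) ^ (66 + ε) := by
  obtain ⟨δ, hδ, t₀, h⟩ := Pool.Agent.Q103.HL.composed K ε hε
  refine ⟨δ, hδ, t₀, fun t ht n F ξ η hD b c hU A B x y hAB heq hx hy => ?_⟩
  refine h t ht n F ξ η ⟨hD.pos, hD.deg, hD.digits, hD.first, hD.ne.1, hD.ne.2, hD.factors.1,
    hD.factors.2⟩ b c ?_ A B hAB x y hx hy heq
  obtain ⟨i, hi⟩ := hU
  exact ⟨i, Finset.mem_filter.mpr ⟨Finset.mem_univ _, hi⟩⟩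

end Pool.Agent.Results.MP_a1107e_nt.ComposedPoints
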