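import Mathlib
import Pool.Agent.Q103.HL.Main

/-!
# The Hall-Lang inequality with absolute exponents for points with small digits

The coordinates are `x = P(t)`, `y = Q(t)` with integer polynomials `P`, `Q` of degree at most `N`
whose coefficients (the digits of `x` and `y` in base `t`, of either sign) are small compared with
`t`; the curve `y ^ 2 = x ^ 3 + A x + B` is arbitrary.
-/

set_option autoImplicit false

namespace Pool.Agent.Results.MP_a1107e_nt.SmallDigitPoints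

open Polynomial

theorem result (N : ℕ) (ε : ℝ) (hε : 0 < ε) : ∃ δ : ℝ, 0 < δ ∧ ∃ t₀ : ℕ, ∀ t : ℕ, t₀ ≤ t →
    ∀ P Q : ℤ[X], P.natDegree ≤ N → Q.natDegree ≤ N → (0 < P.natDegree ∨ 0 < Q.natDegree) →
    (∀ i, |(P.coeff i : ℝ)| ≤ (t : ℝ) ^ δ) → (∀ i, |(Q.coeff i : ℝ)| ≤ (t : ℝ) ^ δ) →
    ∀ A B x y : ℤ, 4 * A ^ 3 + 27 * B ^ 2 ≠ 0 → y ^ 2 = x ^ 3 + A * x + B →
    x = P.eval (t : ℤ) → y = Q.eval (t : ℤ) →
    |(x : ℝ)| ≤ (max |(A : ℝ)| |(B : ℝ)|) ^ (44 + ε) ∧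
    |(y : ℝ)| ≤ (max |(A : ℝ)| |(B : ℝ)|) ^ (66 + ε) := by
  obtain ⟨δ, hδ, t₀, -, h⟩ := Pool.Agent.Q103.HL.digits N ε hε
  refine ⟨δ, hδ, t₀, fun t ht P Q hP hQ hpos hPc hQc A B x y hAB heq hx hy => ?_⟩
  rw [hx, hy] at heq
  rw [hx, hy]
  exact h t ht P Q hP hQ hpos hPc hQc A B hAB heq

end Pool.Agent.Results.MP_a1107e_nt.SmallDigitPoints
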