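import Mathlib
import Pool.Agent.Q204.UF.Hyp

set_option autoImplicit false

/-!
# The Hall-Lang inequality for all Weierstrass equations over all number fields, at the algebraic
points which are short sums of units with coefficients of small height

Let `r` be a number and `Γ` a finitely generated group of algebraic numbers. There are constants
`C`, `δ > 0`, `e` such that for ALL algebraic numbers `a`, `b` with `4 a ^ 3 + 27 b ^ 2 ≠ 0`:

* every algebraic point `(x, y) = ∑ u j V j` (`j < r`) of `y ^ 2 = x ^ 3 + a x + b`, of any degree,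
  where the `u j` have a power in `Γ` and the `V j` are any pairs of algebraic numbers, satisfies
  `h(x, y) ≤ C (1 + h(a, b) + h(V))`;
* in particular the Hall-Lang inequality `h(x, y) ≤ 2 C (1 + h(a, b))` holds for all points
  `∑ u j V j` whose coefficients `V j` satisfy `h(V) ≤ δ h(x, y)`, a condition which does not
  involve the curve;
* for all `V` the number of points `∑ u j s j V j` of the curve, where the `u j` have a power in `Γ`
  and `h(1 : s) < ε`, is at most `C (1 + h(a, b) + h(V)) ^ e`; here `ε` depends only on `r`.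
-/

namespace Pool.Agent.Results.MP_a1107e_nt.SumsOfAlgebraicUnits

open Pool.Agent.Helper259.AbsHt

/-- The algebraic numbers. -/
abbrev Qbar : Type := AlgebraicClosure ℚ

/-- The height `h(1 : x)`: the absolute logarithmic height of the point with the projective
coordinates `1` and `x i`. -/
noncomputable def height {ι : Type} [Finite ι] (x : ι → Qbar) : ℝ :=
  absLogHeight (fun o : Option ι => o.elim (1 : Qbar) x)

/-- The points `(x 0, x 1)` of `y ^ 2 = x ^ 3 + a x + b` of the form `∑ u j s j V j`, where the `u j`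
have a power in `Γ` and `h(1 : s) < ε`. -/
def nearPoints {r : ℕ} (a b : Qbar) (Γ : Subgroup Qbarˣ) (ε : ℝ) (V : Fin r → Fin 2 → Qbar) :
    Set (Fin 2 → Qbar) :=
  {x | x 1 ^ 2 = x 0 ^ 3 + a * x 0 + b ∧ ∃ (u : Fin r → Qbarˣ) (s : Fin r → Qbar),
    (∀ j, ∃ k : ℕ, 0 < k ∧ u j ^ k ∈ Γ) ∧ height s < ε ∧
      ∀ i, x i = ∑ j, (u j : Qbar) * s j * V j i}

/-- the cubic polynomial -/
noncomputable def cubic (a b : Qbar) : Polynomial Qbar :=
  Polynomial.X ^ 3 + Polynomial.C a * Polynomial.X + Polynomial.C b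

theorem eval_cubic (a b x : Qbar) : (cubic a b).eval x = x ^ 3 + a * x + b := by
  unfold cubic
  simp

theorem hFc_cubic (a b : Qbar) :
    Pool.Agent.Q204.UF.hFc 3 (fun _ : Fin 1 => Pool.Agent.Q204.UF.hypPoly (cubic a b)) ≤
      height ![a, b] := by
  refine Pool.Agent.Q204.UF.hFc_le 3 _ ![a, b] fun _ α => ?_
  have hdeg : (cubic a b).natDegree = 3 := Pool.Agent.Q204.UF.cubic_deg a b
  rcases Pool.Agent.Q204.UF.coeff_hypPoly (cubic a b) α with h | h | ⟨i, hi, h⟩
  · exact Or.inl h
  · exact Or.inr (Or.inl h)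
  · rw [hdeg] at hi
    have h0 : (cubic a b).coeff 0 = b := by simp [cubic]
    have h1 : (cubic a b).coeff 1 = a := by
      simp [cubic, Polynomial.coeff_X_pow, Polynomial.coeff_C]
    have h2 : (cubic a b).coeff 2 = 0 := by
      simp [cubic, Polynomial.coeff_X_pow]
    have h3 : (cubic a b).coeff 3 = 1 := by
      simp [cubic]
    interval_cases i
    · exact Or.inr (Or.inr (Or.inr ⟨1, Or.inr (by rw [h, h0]; simp)⟩))
    · exact Or.inr (Or.inr (Or.inr ⟨0, Or.inr (by rw [h, h1]; simp)⟩))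
    · exact Or.inl (by rw [h, h2, neg_zero])
    · exact Or.inr (Or.inr (Or.inl (by rw [h, h3])))

/-- **Main theorem.** For every `r` there is `ε > 0`, and for every finitely generated group `Γ` of
algebraic numbers there are `C`, `δ > 0` and `e`, such that for ALL algebraic numbers `a`, `b` with
`4 a ^ 3 + 27 b ^ 2 ≠ 0` and all pairs `V j` of algebraic numbers: the points
`(x, y) = ∑ u j V j` of `y ^ 2 = x ^ 3 + a x + b`, where the `u j` have a power in `Γ`, satisfy
`h(x, y) ≤ C (1 + h(a, b) + h(V))`, and `h(x, y) ≤ 2 C (1 + h(a, b))` if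
`h(V) ≤ δ h(x, y)`; and there are at most `C (1 + h(a, b) + h(V)) ^ e` points in
`nearPoints a b Γ ε V`. -/
theorem result (r : ℕ) :
    ∃ ε : ℝ, 0 < ε ∧ ∀ Γ : Subgroup Qbarˣ, Γ.FG → ∃ (C δ : ℝ) (e : ℕ), 0 < C ∧ 0 < δ ∧
      ∀ a b : Qbar, 4 * a ^ 3 + 27 * b ^ 2 ≠ 0 → ∀ V : Fin r → Fin 2 → Qbar,
        (∀ (u : Fin r → Qbarˣ) (x y : Qbar), (∀ j, ∃ k : ℕ, 0 < k ∧ u j ^ k ∈ Γ) →
          x = ∑ j, (u j : Qbar) * V j 0 → y = ∑ j, (u j : Qbar) * V j 1 →
          y ^ 2 = x ^ 3 + a * x + b →
          height ![x, y] ≤ C * (1 + height ![a, b] +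
              height (fun p : Fin r × Fin 2 => V p.1 p.2)) ∧
            (height (fun p : Fin r × Fin 2 => V p.1 p.2) ≤ δ * height ![x, y] →
              height ![x, y] ≤ 2 * C * (1 + height ![a, b]))) ∧
        (nearPoints a b Γ ε V).Finite ∧
        ((nearPoints a b Γ ε V).ncard : ℝ) ≤ C * (1 + height ![a, b] +
          height (fun p : Fin r × Fin 2 => V p.1 p.2)) ^ e := by
  classical
  refine ⟨Pool.Agent.Y215.AF.eps 3 r, half_pos (div_pos (Pool.Agent.Y215.SP.epsn_pos _
    (Nat.one_le_pow _ _ (by omega))) (by norm_num)), fun Γ hΓ => ?_⟩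
  obtain ⟨C, hC0, hC⟩ := Pool.Agent.Q204.UF.aff_heights (n := 2) (q := 1) (r := r) 3
    (by norm_num) Γ hΓ
  obtain ⟨B, e, hB0, hB⟩ := Pool.Agent.Q204.UF.aff_near (n := 2) (q := 1) (r := r) 3
    (by norm_num) Γ hΓ
  obtain ⟨K, hK⟩ : ∃ K : ℝ, K = max C B + 1 := ⟨_, rfl⟩
  have hKC : C ≤ K := by rw [hK]; linarith [le_max_left C B]
  have hKB : B ≤ K := by rw [hK]; linarith [le_max_right C B]
  have hK0 : 0 < K := by
    have := le_max_left C B
    linarith
  refine ⟨K, 1 / (2 * K), e, hK0, by positivity, fun a b hab V => ?_⟩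
  have hF := hFc_cubic a b
  have ha0 : 0 ≤ height ![a, b] := absLogHeight_nonneg _
  have hV0 : 0 ≤ height (fun p : Fin r × Fin 2 => V p.1 p.2) := absLogHeight_nonneg _
  have hVe : Pool.Agent.Y215.AF.hAV V = height (fun p : Fin r × Fin 2 => V p.1 p.2) := rfl
  have hdeg : (cubic a b).natDegree = 3 := Pool.Agent.Q204.UF.cubic_deg a b
  have hsep : (cubic a b).Separable := Pool.Agent.Q204.UF.cubic_sep a b hab
  have hFd : (Pool.Agent.Q204.UF.hypPoly (cubic a b)).totalDegree ≤ 3 :=
    Pool.Agent.Q204.UF.hypPoly_deg _ 3 (by norm_num) hdeg.le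
  refine ⟨fun u x y hu hx hy hxy => ?_, ?_⟩
  · have hpt : (fun i => ∑ j, (u j : Qbar) * V j i) = ![x, y] := by
      funext i
      fin_cases i
      · exact hx.symm
      · exact hy.symm
    have h1 := hC (fun _ => Pool.Agent.Q204.UF.hypPoly (cubic a b)) u V (fun _ => hFd) hu
      (fun _ => by
        rw [hpt, Pool.Agent.Q204.UF.aeval_hypPoly, eval_cubic]
        simp [hxy]) (fun m _ hm => by
        obtain ⟨c, hc⟩ := Pool.Agent.Q204.UF.hyp_const Finset.univ m
          (fun j a => (u j : Qbar) * V j a) (cubic a b) hsep (by rw [hdeg]) (fun t ht => by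
            have h2 := hm.1 t ht 0
            rw [Pool.Agent.Q204.UF.aeval_hypPoly, sub_eq_zero] at h2
            exact h2)
        obtain ⟨t, ht, hne⟩ := hm.2
        apply hne
        funext i
        rw [hc t ht i, ← hc 1 one_ne_zero i]
        simp)
    rw [hpt, hVe] at h1
    have h2 : height ![x, y] ≤ K * (1 + height ![a, b] +
        height (fun p : Fin r × Fin 2 => V p.1 p.2)) := by
      refine h1.trans ((mul_le_mul_of_nonneg_left ?_ hC0).trans
        (mul_le_mul_of_nonneg_right hKC (by linarith)))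
      linarith
    refine ⟨h2, fun h3 => ?_⟩
    have h4 : K * (1 / (2 * K) * height ![x, y]) = height ![x, y] / 2 := by
      field_simp
    have h5 : K * height (fun p : Fin r × Fin 2 => V p.1 p.2) ≤ height ![x, y] / 2 := by
      rw [← h4]
      exact mul_le_mul_of_nonneg_left h3 hK0.le
    have h6 : K * (1 + height ![a, b] + height (fun p : Fin r × Fin 2 => V p.1 p.2)) =
        K * (1 + height ![a, b]) + K * height (fun p : Fin r × Fin 2 => V p.1 p.2) := by ring
    linarith
  · obtain ⟨hfin, hcard⟩ := hB (fun _ => Pool.Agent.Q204.UF.hypPoly (cubic a b)) V (fun _ => hFd)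
    have hsub : nearPoints a b Γ (Pool.Agent.Y215.AF.eps 3 r) V ⊆
        Pool.Agent.Q204.UF.nearL (Pool.Agent.Q204.UF.expB 3 (r + 1))
          (fun _ : Fin 1 => Pool.Agent.Q204.UF.hypPoly (cubic a b)) Γ
          (Pool.Agent.Y215.AF.eps 3 r) V := by
      rintro x ⟨hx, u, s, hu, hs, hxs⟩
      refine ⟨fun _ => ?_, ?_, u, s, hu, hs, hxs⟩
      · rw [Pool.Agent.Q204.UF.aeval_hypPoly, eval_cubic, hx, sub_self]
      · rintro ⟨c, h1, h2, t, ht, hne⟩
        obtain ⟨c', hc'⟩ := Pool.Agent.Q204.UF.hyp_const (Finset.Icc (-((Pool.Agent.Q204.UF.expB 3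
          (r + 1) : ℕ) : ℤ)) (Pool.Agent.Q204.UF.expB 3 (r + 1) : ℕ)) (fun k => k) c (cubic a b)
          hsep (by rw [hdeg]) (fun t ht => by
            have h3 := h1 t ht 0
            rw [Pool.Agent.Q204.UF.aeval_hypPoly, sub_eq_zero] at h3
            exact h3)
        apply hne
        funext i
        rw [hc' t ht i, ← hc' 1 one_ne_zero i, ← h2 i]
        simp
    refine ⟨hfin.subset hsub, ?_⟩
    have h3 := Set.ncard_le_ncard hsub hfin
    refine le_trans (by exact_mod_cast h3) (hcard.trans ?_)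
    rw [hVe]
    have h0 : 0 ≤ Pool.Agent.Q204.UF.hFc 3
      (fun _ : Fin 1 => Pool.Agent.Q204.UF.hypPoly (cubic a b)) := Pool.Agent.Q204.UF.hFc_nonneg _ _
    exact mul_le_mul hKB (pow_le_pow_left₀ (by linarith) (by linarith) _)
      (pow_nonneg (by linarith) _) hK0.le

end Pool.Agent.Results.MP_a1107e_nt.SumsOfAlgebraicUnits
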